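import Mathlib

set_option autoImplicit false

/-! Sets given by polynomials that split all large families of moved strings. -/

namespace Pool.Agent.H550R2.CK

open Finset

/-- the strings obtained from `z` by some of the moves -/
def mv {l r : ℕ} (π : Fin r → Fin l → Fin l) (z : Fin l → Bool) (c : Fin r → Bool) :
    Fin l → Bool :=
  (List.finRange r).foldr (fun i y => if c i = true then y ∘ π i else y) z

/-- The string without its first two bits. -/
def tl {m : ℕ} (z : Fin (m + 2) → Bool) : Fin m → Bool := fun i => z i.succ.succ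

/-- The set of the strings `x` with `lam (∑ a i * enc x ^ i) = true`. -/
def hset {K Y : Type} [Field K] {k : ℕ} (enc : Y → K) (lam : K → Bool) (a : Fin k → K) : Set Y :=
  {x | lam (∑ i, a i * enc x ^ (i : ℕ)) = true}

theorem count_fib {K : Type} [Field K] [Fintype K] [DecidableEq K] {k : ℕ} (x : Fin k → K)
    (hx : Function.Injective x) (lam : K → Bool) (v : Bool) :
    (univ.filter fun a : Fin k → K => ∀ i, lam (∑ j, a j * x i ^ (j : ℕ)) = v).card ≤
      (univ.filter fun y => lam y = v).card ^ k := by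
  classical
  have hinj : Function.Injective (Matrix.vandermonde x).mulVec := by
    apply Matrix.mulVec_injective_of_isUnit
    rw [Matrix.isUnit_iff_isUnit_det, isUnit_iff_ne_zero]
    exact Matrix.det_vandermonde_ne_zero_iff.2 hx
  have h1 : (univ.filter fun y => lam y = v).card ^ k =
      (Fintype.piFinset fun _ : Fin k => univ.filter fun y => lam y = v).card := by
    rw [Fintype.card_piFinset, Finset.prod_const, Finset.card_univ, Fintype.card_fin]
  rw [h1]
  apply Finset.card_le_card_of_injOn (fun a => (Matrix.vandermonde x).mulVec a)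
  · intro a ha
    have ha' := (Finset.mem_filter.1 (Finset.mem_coe.1 ha)).2
    refine Finset.mem_coe.2 (Fintype.mem_piFinset.2 fun i => ?_)
    refine Finset.mem_filter.2 ⟨Finset.mem_univ _, ?_⟩
    rw [← ha' i]
    congr 1
    unfold Matrix.mulVec dotProduct
    apply Finset.sum_congr rfl
    intro j _
    show Matrix.vandermonde x i j * a j = _
    rw [Matrix.vandermonde_apply, mul_comm]
  · intro a _ b _ hab
    exact hinj hab

/-- **A polynomial that splits few families.** -/
theorem exists_hash {K Y Θ I : Type} [Field K] [Fintype K] [DecidableEq K] [Fintype Θ] [Fintype I]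
    {k : ℕ} (hI : Fintype.card I = k) (enc : Y → K) (henc : Function.Injective enc)
    (lam : K → Bool) (hlam : 2 * (univ.filter fun y => lam y = true).card = Fintype.card K)
    (f : Θ → I → Y) (hΘ : 2 * Fintype.card Θ < 2 ^ k) :
    ∃ a : Fin k → K, ∀ θ, Function.Injective (f θ) →
      (∃ i, f θ i ∈ hset enc lam a) ∧ ∃ i, f θ i ∉ hset enc lam a := by
  classical
  set h := (univ.filter fun y => lam y = true).card with hh
  have hf : (univ.filter fun y => lam y = false).card = h := by
    have h1 := Finset.card_filter_add_card_filter_not (s := (univ : Finset K))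
      (fun y => lam y = true)
    have h2 : (univ.filter fun y => ¬ lam y = true) = univ.filter fun y => lam y = false := by
      ext y
      simp only [Finset.mem_filter, Finset.mem_univ, true_and, Bool.not_eq_true]
    rw [h2, Finset.card_univ] at h1
    omega
  have hv : ∀ v, (univ.filter fun y => lam y = v).card = h := by
    intro v
    cases v
    · exact hf
    · rfl
  have hpos : 0 < h := by
    have := Fintype.card_pos (α := K)
    omega
  let e := Fintype.equivFinOfCardEq hI
  by_contra hcon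
  push Not at hcon
  have hsub : (univ : Finset (Fin k → K)) ⊆ (univ : Finset (Θ × Bool)).biUnion fun p =>
      univ.filter fun a : Fin k → K => Function.Injective (f p.1) ∧
        ∀ i, lam (∑ j, a j * enc (f p.1 i) ^ (j : ℕ)) = p.2 := by
    intro a _
    obtain ⟨θ, hθ, hθ'⟩ := hcon a
    rw [Finset.mem_biUnion]
    by_cases hex : ∃ i, f θ i ∈ hset enc lam a
    · refine ⟨(θ, true), Finset.mem_univ _, Finset.mem_filter.2 ⟨Finset.mem_univ _, hθ, ?_⟩⟩
      exact fun i => hθ' hex i
    · refine ⟨(θ, false), Finset.mem_univ _, Finset.mem_filter.2 ⟨Finset.mem_univ _, hθ, ?_⟩⟩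
      intro i
      rw [← Bool.not_eq_true]
      exact fun h => hex ⟨i, h⟩
  have hcount : ∀ p : Θ × Bool, (univ.filter fun a : Fin k → K => Function.Injective (f p.1) ∧
        ∀ i, lam (∑ j, a j * enc (f p.1 i) ^ (j : ℕ)) = p.2).card ≤ h ^ k := by
    intro p
    by_cases hp : Function.Injective (f p.1)
    · refine le_trans (Finset.card_le_card ?_) ((count_fib (fun i => enc (f p.1 (e.symm i)))
        (henc.comp (hp.comp e.symm.injective)) lam p.2).trans (le_of_eq (by rw [hv])))
      intro a ha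
      have ha' := (Finset.mem_filter.1 ha).2.2
      exact Finset.mem_filter.2 ⟨Finset.mem_univ _, fun i => ha' (e.symm i)⟩
    · rw [Finset.filter_eq_empty_iff.2 (fun a _ h' => hp h'.1), Finset.card_empty]
      exact Nat.zero_le _
  have h1 := (Finset.card_le_card hsub).trans (Finset.card_biUnion_le.trans
    (Finset.sum_le_sum fun p _ => hcount p))
  rw [Finset.sum_const, smul_eq_mul, Finset.card_univ, Finset.card_univ, Fintype.card_prod,
    Fintype.card_bool, Fintype.card_fun, Fintype.card_fin, ← hlam, mul_pow] at h1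
  have h2 : Fintype.card Θ * 2 * h ^ k < 2 ^ k * h ^ k :=
    Nat.mul_lt_mul_of_pos_right (by omega) (by positivity)
  omega

theorem num_aux (u : ℕ) (hu : 1 ≤ u) : u * 2 ^ u * (4 * u) + 2 ^ u + 1 < 2 ^ (4 * u) := by
  have h1 : u + 1 ≤ 2 ^ u := Nat.lt_two_pow_self
  have h2 : (2 : ℕ) ^ (4 * u) = (2 ^ u) ^ 4 := by rw [← pow_mul, mul_comm]
  rw [h2]
  obtain ⟨x, hx⟩ : ∃ x, 2 ^ u = x + 2 := ⟨2 ^ u - 2, by omega⟩
  rw [hx] at h1 ⊢
  have h3 : u ≤ x + 1 := by omega
  calc u * (x + 2) * (4 * u) + (x + 2) + 1 ≤ (x + 1) * (x + 2) * (4 * (x + 1)) + (x + 2) + 1 := by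
        gcongr
    _ < (x + 1) * (x + 2) * (4 * (x + 1)) + (x + 2) + 1 +
        (5 + 11 * x + 8 * x ^ 2 + 4 * x ^ 3 + x ^ 4) := by omega
    _ = (x + 2) ^ 4 := by ring

/-- the degree bound -/
def kk (m : ℕ) : ℕ := 2 ^ (4 * Nat.clog 2 (m + 2))

/-- **Generic sets exist.** -/
theorem exists_gen (m : ℕ) {K : Type} [Field K] [Fintype K] [DecidableEq K]
    (enc : (Fin m → Bool) → K) (henc : Function.Injective enc)
    (lam : K → Bool) (hlam : 2 * (univ.filter fun y => lam y = true).card = Fintype.card K) :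
    ∃ a : Fin (kk m) → K, ∀ (π : Fin (4 * Nat.clog 2 (m + 2)) → Fin (m + 2) → Fin (m + 2))
      (z : Fin (m + 2) → Bool), Function.Injective (fun c => tl (mv π z c)) →
      (∃ c, tl (mv π z c) ∈ hset enc lam a) ∧ ∃ c, tl (mv π z c) ∉ hset enc lam a := by
  set u := Nat.clog 2 (m + 2) with hu
  have hu1 : 1 ≤ u := Nat.clog_pos (by norm_num) (by omega)
  have hl : m + 2 ≤ 2 ^ u := Nat.le_pow_clog (by norm_num) _
  have hcard : 2 * Fintype.card ((Fin (4 * u) → Fin (m + 2) → Fin (m + 2)) ×
      (Fin (m + 2) → Bool)) < 2 ^ kk m := by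
    rw [Fintype.card_prod, Fintype.card_fun, Fintype.card_fun, Fintype.card_fun, Fintype.card_fin,
      Fintype.card_fin, Fintype.card_bool]
    have h1 : (m + 2) ^ (m + 2) ≤ 2 ^ (u * 2 ^ u) := by
      calc (m + 2) ^ (m + 2) ≤ (2 ^ u) ^ (m + 2) := Nat.pow_le_pow_left hl _
        _ ≤ (2 ^ u) ^ (2 ^ u) := Nat.pow_le_pow_right (by positivity) hl
        _ = 2 ^ (u * 2 ^ u) := by rw [← pow_mul]
    have h2 : 2 ^ (m + 2) ≤ 2 ^ (2 ^ u) := Nat.pow_le_pow_right (by norm_num) hl
    calc 2 * (((m + 2) ^ (m + 2)) ^ (4 * u) * 2 ^ (m + 2))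
        ≤ 2 * ((2 ^ (u * 2 ^ u)) ^ (4 * u) * 2 ^ (2 ^ u)) :=
          Nat.mul_le_mul_left _ (Nat.mul_le_mul (Nat.pow_le_pow_left h1 _) h2)
      _ = 2 ^ (u * 2 ^ u * (4 * u) + 2 ^ u + 1) := by rw [← pow_mul, ← pow_add, ← pow_succ']
      _ < 2 ^ kk m := Nat.pow_lt_pow_right (by norm_num) (num_aux u hu1)
  obtain ⟨a, ha⟩ := exists_hash (I := Fin (4 * u) → Bool) (k := kk m)
    (by rw [Fintype.card_fun, Fintype.card_bool, Fintype.card_fin]; rfl) enc henc lam hlam
    (fun (θ : (Fin (4 * u) → Fin (m + 2) → Fin (m + 2)) × (Fin (m + 2) → Bool)) c =>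
      tl (mv θ.1 θ.2 c)) hcard
  exact ⟨a, fun π z hinj => ha (π, z) hinj⟩

end Pool.Agent.H550R2.CK
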