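import Pool.Agent.H550R2.SP.Defs
import Pool.Agent.H550R2.CK.Hash
import Pool.Agent.H30R2.NS.Conv

set_option autoImplicit false

/-! Symmetric oracle procedures for languages. -/

namespace Pool.Agent.H550R2.CK

open Pool.Agent.H550R2.Lift Pool.Agent.H550R2.Lin
open Pool.Agent.H30R2.NS (Clause Sat)

/-- The language `00A ∪ 10(A ∩ B) ∪ 11(A ∪ B)`. -/
def Cook (A B : ∀ m, Set (Fin m → Bool)) : ∀ l, Set (Fin l → Bool)
  | 0 => ∅
  | 1 => ∅
  | m + 2 => {z | (z 0 = false ∧ z 1 = false ∧ tl z ∈ A m) ∨
      (z 0 = true ∧ z 1 = false ∧ tl z ∈ A m ∧ tl z ∈ B m) ∨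
      (z 0 = true ∧ z 1 = true ∧ (tl z ∈ A m ∨ tl z ∈ B m))}

/-- The language 3-SAT: the set of clauses over `n` variables that is given by a string of length
`(2 n) ^ 3` is satisfiable. -/
def SAT3 (num : ∀ n, Clause 3 (Fin n) ≃ Fin ((2 * n) ^ 3)) (m : ℕ) : Set (Fin m → Bool) :=
  {x | ∃ (n : ℕ) (h : (2 * n) ^ 3 = m),
    Sat {c : Clause 3 (Fin n) | x (Fin.cast h (num n c)) = true}}

/-- A symmetric oracle procedure with `r` adaptive queries to a language. -/
structure LProc (I V : Type) (A : (V → ZMod 2) → Equiv.Perm I) (r : ℕ) where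
  /-- the lengths of the queries -/
  l : Fin r → ℕ
  /-- the computation of the query strings -/
  qry : ∀ i, Red (I ⊕ Fin r) (Fin (l i)) V (exA A r)
  equi : ∀ i (x : Set I) (a : Fin r → Bool) y o,
    (qry i).out (fun z => inp (ind x) a ((exA A r y).symm z))
      ((qry i).ρ (Multiplicative.ofAdd y) o) = (qry i).out (inp (ind x) a) o
  /-- the decision -/
  dec : LAlg (I ⊕ Fin r)
  sym : ∀ y, dec.Sym (exA A r y)

variable {I V : Type} {A : (V → ZMod 2) → Equiv.Perm I} {r : ℕ}

/-- The procedure as a procedure with arbitrary query strings. -/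
def LProc.toO (F : LProc I V A r) : OProc I V A r where
  O := fun i => Fin (F.l i)
  fin := fun _ => inferInstance
  qry := F.qry
  equi := F.equi
  dec := F.dec
  sym := F.sym

open Classical in
/-- The decision of the procedure with the oracle `C`. -/
noncomputable def LProc.acc (F : LProc I V A r) (C : ∀ l, Set (Fin l → Bool)) (v : I → ℝ) :
    Bool := F.toO.acc (fun i => Finset.univ.filter fun z => z ∈ C (F.l i)) v

/-- The total length of the queries and the number of nonnegative variables. -/
def LProc.cost (F : LProc I V A r) : ℕ := F.toO.cost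

end Pool.Agent.H550R2.CK
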