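import Pool.Agent.H550R2.CK.Defs
import Pool.Agent.H550R2.Neg.Good
import Pool.Agent.H550R2.SP.Proc2

set_option autoImplicit false
set_option linter.unusedSectionVars false

/-! Two queries suffice. -/

namespace Pool.Agent.H550R2.CK

open Finset Pool.Agent.H550R2.Lift Pool.Agent.H550R2.Lin
open Pool.Agent.H550R2.Neg (act act_add)
open Pool.Agent.H30R2.NS (Clause Ext Sat)

section bit

variable {I : Type}

/-- the condition that an entry is one -/
def bitL (i : I) : LP I (Fin 0) where
  L :=
    { carrier := {p | p.1 i = 1}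
      smul_vsub_vadd_mem' := by
        intro c p q s hp hq hs
        have hp' : p.1 i = 1 := hp
        have hq' : q.1 i = 1 := hq
        have hs' : s.1 i = 1 := hs
        show c * (p.1 i - q.1 i) + s.1 i = 1
        rw [hp', hq', hs', sub_self, mul_zero, zero_add] }

theorem bitL_acc (i : I) (v : I → ℝ) : (bitL i).Acc v ↔ v i = 1 := by
  constructor
  · rintro ⟨y, -, hy⟩
    exact hy
  · intro h
    exact ⟨fun _ => 0, fun _ => le_rfl, h⟩

theorem bitL_aut (i : I) (g : Equiv.Perm I) (hg : g i = i) (π : Equiv.Perm (Fin 0)) :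
    (bitL i).IsAut g π := by
  intro v y
  show v i = 1 ↔ v (g.symm i) = 1
  rw [(Equiv.symm_apply_eq g).2 hg.symm]

/-- the algorithm that reads an entry -/
def bitA (i : I) (no yes : Bool) : LAlg I := .test 0 (bitL i) (.out no) (.out yes)

open Classical in
theorem bitA_run (i : I) (no yes : Bool) (v : I → ℝ) :
    (bitA i no yes).run v = if v i = 1 then yes else no := by
  show (if (bitL i).Acc v then yes else no) = _
  by_cases h : v i = 1
  · rw [if_pos h, if_pos ((bitL_acc i v).2 h)]
  · rw [if_neg h, if_neg (fun h' => h ((bitL_acc i v).1 h'))]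

theorem bitA_sym (i : I) (no yes : Bool) (g : Equiv.Perm I) (hg : g i = i) :
    (bitA i no yes).Sym g := ⟨⟨1, bitL_aut i g hg 1⟩, trivial, trivial⟩

end bit

section pos

variable {Y : Type} {N : ℕ} (e : Y ≃ Fin N)

/-- the positions of the strings -/
def pos : Fin (N + 2) ≃ Option (Option Y) where
  toFun o := Fin.cases none (fun j => Fin.cases (some none) (fun i => some (some (e.symm i))) j) o
  invFun
    | none => 0
    | some none => 1
    | some (some c) => (e c).succ.succ
  left_inv o := by
    refine Fin.cases rfl (fun j => ?_) o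
    refine Fin.cases rfl (fun i => ?_) j
    show (e (e.symm i)).succ.succ = i.succ.succ
    rw [Equiv.apply_symm_apply]
  right_inv c := by
    rcases c with _ | _ | c
    · rfl
    · rfl
    · show some (some (e.symm (e c))) = _
      rw [Equiv.symm_apply_apply]

/-- the action on the positions -/
def posP {V : Type} (A : (V → ZMod 2) → Equiv.Perm Y)
    (hA : ∀ γ γ', A (γ + γ') = A γ * A γ') :
    Multiplicative (V → ZMod 2) →* Equiv.Perm (Fin (N + 2)) where
  toFun g := (pos e).trans ((Equiv.optionCongr (Equiv.optionCongr (A g.toAdd))).trans (pos e).symm)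
  map_one' := by
    have h0 : A 0 = 1 := by
      have h1 := hA 0 0
      rw [add_zero] at h1
      exact mul_eq_left.1 h1.symm
    apply Equiv.ext
    intro o
    show (pos e).symm ((Equiv.optionCongr (Equiv.optionCongr (A 0))) (pos e o)) = o
    rw [h0]
    rw [Equiv.symm_apply_eq]
    rcases pos e o with _ | _ | c <;> rfl
  map_mul' := fun g h => by
    apply Equiv.ext
    intro o
    show (pos e).symm ((Equiv.optionCongr (Equiv.optionCongr (A (g.toAdd + h.toAdd)))) (pos e o)) =
      (pos e).symm ((Equiv.optionCongr (Equiv.optionCongr (A g.toAdd)))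
        (pos e ((pos e).symm ((Equiv.optionCongr (Equiv.optionCongr (A h.toAdd))) (pos e o)))))
    rw [hA, Equiv.apply_symm_apply]
    congr 1
    rcases pos e o with _ | _ | c <;> rfl

theorem pos_posP {V : Type} (A : (V → ZMod 2) → Equiv.Perm Y)
    (hA : ∀ γ γ', A (γ + γ') = A γ * A γ') (y : V → ZMod 2) (o : Fin (N + 2)) :
    pos e (posP e A hA (Multiplicative.ofAdd y) o) =
      (Equiv.optionCongr (Equiv.optionCongr (A y))) (pos e o) := by
  show pos e ((pos e).symm ((Equiv.optionCongr (Equiv.optionCongr (A y))) (pos e o))) = _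
  rw [Equiv.apply_symm_apply]

/-- the algorithms of query `i` -/
def qalg (i : Fin 2) : Option (Option Y) → LAlg (Y ⊕ Fin 2)
  | none => .out (decide (i = 1))
  | some none => if i = 0 then .out false else bitA (Sum.inr 0) true false
  | some (some c) => bitA (Sum.inl c) false true

variable {V : Type} (A : (V → ZMod 2) → Equiv.Perm Y) (hA : ∀ γ γ', A (γ + γ') = A γ * A γ')

theorem qalg_sym (i : Fin 2) (c : Option (Option Y)) (y : V → ZMod 2)
    (h : (Equiv.optionCongr (Equiv.optionCongr (A y))) c = c) :
    (qalg i c).Sym (exA A 2 y) := by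
  rcases c with _ | _ | c
  · exact trivial
  · show (if i = 0 then LAlg.out false else bitA (Sum.inr 0) true false).Sym _
    by_cases hi : i = 0
    · rw [if_pos hi]
      exact trivial
    · rw [if_neg hi]
      exact bitA_sym _ _ _ _ rfl
  · refine bitA_sym _ _ _ _ ?_
    have h1 : some (some (A y c)) = some (some c) := h
    have h2 : A y c = c := Option.some_injective _ (Option.some_injective _ h1)
    show Sum.inl (A y c) = Sum.inl c
    rw [h2]

theorem qalg_shift (i : Fin 2) (c : Option (Option Y)) (y : V → ZMod 2) (v : Y ⊕ Fin 2 → ℝ) :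
    (qalg i ((Equiv.optionCongr (Equiv.optionCongr (A y))) c)).run
      (fun z => v ((exA A 2 y).symm z)) = (qalg i c).run v := by
  classical
  rcases c with _ | _ | c
  · rfl
  · show (if i = 0 then LAlg.out false else bitA (Sum.inr 0) true false).run _ =
      (if i = 0 then LAlg.out false else bitA (Sum.inr 0) true false).run _
    by_cases hi : i = 0
    · rw [if_pos hi]
      rfl
    · rw [if_neg hi, bitA_run, bitA_run]
      rfl
  · show (bitA (Sum.inl (A y c)) false true).run _ = (bitA (Sum.inl c) false true).run _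
    rw [bitA_run, bitA_run]
    have h1 : v ((exA A 2 y).symm (Sum.inl (A y c))) = v (Sum.inl c) := by
      show v (Sum.inl ((A y).symm (A y c))) = _
      rw [Equiv.symm_apply_apply]
    rw [h1]

/-- The procedure with two queries. -/
def twoQ : LProc Y V A 2 where
  l := fun _ => N + 2
  qry := fun i =>
    { ρ := posP e A hA
      alg := fun o => qalg i (pos e o)
      sym := fun o y h => by
        refine qalg_sym A i (pos e o) y ?_
        rw [← pos_posP e A hA, h] }
  equi := fun i x a y o => by
    show (qalg i (pos e (posP e A hA (Multiplicative.ofAdd y) o))).run _ = _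
    rw [pos_posP]
    exact qalg_shift A i (pos e o) y _
  dec := bitA (Sum.inr 1) false true
  sym := fun y => bitA_sym _ _ _ _ rfl

theorem qalg_size (i : Fin 2) (c : Option (Option Y)) : (qalg i c).size = 0 := by
  rcases c with _ | _ | c
  · rfl
  · show (if i = 0 then LAlg.out false else bitA (Sum.inr 0) true false : LAlg (Y ⊕ Fin 2)).size = 0
    by_cases hi : i = 0
    · rw [if_pos hi]
      rfl
    · rw [if_neg hi]
      rfl
  · rfl

theorem twoQ_cost : (twoQ e A hA).cost = 2 * (N + 2) := by
  show ∑ i : Fin 2, (Fintype.card (Fin (N + 2)) + ∑ o, (qalg i (pos e o)).size) + 0 = _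
  rw [Fin.sum_univ_two, Fintype.card_fin, Finset.sum_eq_zero fun o _ => qalg_size _ _,
    Finset.sum_eq_zero fun o _ => qalg_size _ _]
  ring

open Classical in
/-- the string of a set -/
noncomputable def str (x : Set Y) : Fin N → Bool := fun j => decide (e.symm j ∈ x)

open Classical in
theorem ind_one (x : Set Y) (c : Y) : (ind x c = 1) ↔ c ∈ x := by
  unfold ind
  by_cases h : c ∈ x
  · simp [h]
  · simp [h]

/-- the string of query `i` -/
noncomputable def word (i : Fin 2) (v : Y ⊕ Fin 2 → ℝ) : Fin (N + 2) → Bool :=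
  fun o => (qalg i (pos e o)).run v

theorem word_tl (i : Fin 2) (x : Set Y) (a : Fin 2 → Bool) :
    tl (word e i (inp (ind x) a)) = str e x := by
  classical
  funext j
  show (bitA (Sum.inl (e.symm j)) false true).run (inp (ind x) a) = _
  rw [bitA_run]
  show (if ind x (e.symm j) = 1 then true else false) = decide (e.symm j ∈ x)
  by_cases h : e.symm j ∈ x
  · rw [if_pos ((ind_one x _).2 h), decide_eq_true h]
  · rw [if_neg (fun h' => h ((ind_one x _).1 h')), decide_eq_false h]

theorem word_0 (i : Fin 2) (v : Y ⊕ Fin 2 → ℝ) : word e i v 0 = decide (i = 1) := rfl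

theorem word_01 (v : Y ⊕ Fin 2 → ℝ) : word e 0 v 1 = false := rfl

theorem word_11 (x : Set Y) (a : Fin 2 → Bool) : word e 1 (inp (ind x) a) 1 = !(a 0) := by
  classical
  show (bitA (Sum.inr 0) true false).run (inp (ind x) a) = _
  rw [bitA_run]
  show (if (if a 0 = true then (1 : ℝ) else 0) = 1 then false else true) = !(a 0)
  cases a 0 <;> simp

theorem word0_mem (A' B : ∀ m, Set (Fin m → Bool)) (x : Set Y) (a : Fin 2 → Bool) :
    word e 0 (inp (ind x) a) ∈ Cook A' B (N + 2) ↔ str e x ∈ A' N := by
  have h0 : word e 0 (inp (ind x) a) 0 = false := rfl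
  have h1 : word e 0 (inp (ind x) a) 1 = false := rfl
  constructor
  · rintro (h | h | h)
    · rw [← word_tl e 0 x a]
      exact h.2.2
    · rw [h0] at h
      exact absurd h.1 Bool.false_ne_true
    · rw [h0] at h
      exact absurd h.1 Bool.false_ne_true
  · intro h
    rw [← word_tl e 0 x a] at h
    exact Or.inl ⟨h0, h1, h⟩

open Classical in
theorem word1_mem (A' B : ∀ m, Set (Fin m → Bool)) (x : Set Y) (a : Fin 2 → Bool)
    (ha : a 0 = decide (str e x ∈ A' N)) :
    word e 1 (inp (ind x) a) ∈ Cook A' B (N + 2) ↔ str e x ∈ B N := by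
  have h0 : word e 1 (inp (ind x) a) 0 = true := rfl
  have h1 := word_11 e x a
  have h2 := word_tl e 1 x a
  constructor
  · rintro (h | h | h)
    · rw [h0] at h
      exact absurd h.1.symm Bool.false_ne_true
    · rw [← h2]
      exact h.2.2.2
    · rcases h.2.2 with h3 | h3
      · rw [h2] at h3
        rw [ha, decide_eq_true h3] at h1
        rw [h1] at h
        exact absurd h.2.1 (by decide)
      · rw [← h2]
        exact h3
  · intro h
    by_cases h3 : str e x ∈ A' N
    · rw [ha, decide_eq_true h3] at h1
      refine Or.inr (Or.inl ⟨h0, h1, ?_, ?_⟩)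
      · rw [h2]
        exact h3
      · rw [h2]
        exact h
    · rw [ha, decide_eq_false h3] at h1
      refine Or.inr (Or.inr ⟨h0, h1, Or.inr ?_⟩)
      rw [h2]
      exact h

/-- **Two queries suffice.** -/
theorem twoQ_acc (A' B : ∀ m, Set (Fin m → Bool)) (x : Set Y) :
    (twoQ e A hA).acc (Cook A' B) (ind x) = true ↔ str e x ∈ B N := by
  classical
  set F := (twoQ e A hA).toO with hF
  set S : ∀ i, Finset (F.O i → Bool) :=
    fun i => Finset.univ.filter fun z => z ∈ Cook A' B ((twoQ e A hA).l i) with hS
  have ans : ∀ (j : ℕ) (i : Fin 2), F.answers S (ind x) (j + 1) i =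
      if i.1 = j then decide ((F.qry i).out (inp (ind x) (F.answers S (ind x) j)) ∈ S i)
      else F.answers S (ind x) j i := fun _ _ => rfl
  have h0 : F.answers S (ind x) 1 0 = decide (str e x ∈ A' N) := by
    rw [ans 0 0, if_pos (show (0 : Fin 2).1 = 0 from rfl)]
    apply decide_eq_decide.2
    rw [hS]
    simp only [Finset.mem_filter, Finset.mem_univ, true_and]
    exact word0_mem e A' B x _
  have h1 : F.answers S (ind x) 2 1 = decide (str e x ∈ B N) := by
    rw [ans 1 1, if_pos (show (1 : Fin 2).1 = 1 from rfl)]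
    apply decide_eq_decide.2
    rw [hS]
    simp only [Finset.mem_filter, Finset.mem_univ, true_and]
    exact word1_mem e A' B x _ h0
  have h2 : (twoQ e A hA).acc (Cook A' B) (ind x) = F.answers S (ind x) 2 1 := by
    show (bitA (Sum.inr 1) false true).run (inp (ind x) (F.answers S (ind x) 2)) = _
    rw [bitA_run]
    show (if (if F.answers S (ind x) 2 1 = true then (1 : ℝ) else 0) = 1 then true else false) = _
    cases F.answers S (ind x) 2 1 <;> simp
  rw [h2, h1, decide_eq_true_iff]

end pos

/-- The length of a string of clauses determines the number of variables. -/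
theorem str_mem (num : ∀ n, Clause 3 (Fin n) ≃ Fin ((2 * n) ^ 3)) (n : ℕ)
    (Φ : Set (Clause 3 (Fin n))) : str (num n) Φ ∈ SAT3 num ((2 * n) ^ 3) ↔ Sat Φ := by
  classical
  have hset : ∀ Φ : Set (Clause 3 (Fin n)),
      {c : Clause 3 (Fin n) | str (num n) Φ (Fin.cast rfl (num n c)) = true} = Φ := by
    intro Φ
    ext c
    show (decide ((num n).symm (num n c) ∈ Φ) = true) ↔ c ∈ Φ
    rw [Equiv.symm_apply_apply, decide_eq_true_iff]
  constructor
  · rintro ⟨n', h, hs⟩
    have h1 : n' = n := by
      have h2 := Nat.pow_left_injective (n := 3) (by norm_num) h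
      omega
    subst h1
    have h2 := hset Φ
    rw [h2] at hs
    exact hs
  · intro hs
    refine ⟨n, rfl, ?_⟩
    rw [hset]
    exact hs

end Pool.Agent.H550R2.CK
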