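import Pool.Agent.H550R2.SP.Thr
import Pool.Agent.H550R2.CK.Two

set_option autoImplicit false
set_option linter.unusedSectionVars false

/-! Cook's and Karp's reducibility for symmetric reductions. -/

namespace Pool.Agent.H550R2.CK

open Finset Module Pool.Agent.H550R2.Lift Pool.Agent.H550R2.Lin Pool.Agent.H550R2.WH
open Pool.Agent.H550R2.SP
open Pool.Agent.H550R2.Neg (rowT pr_rowT act idE)
open Pool.Agent.H550R2.Neg (act_add)
open Pool.Agent.H30R2.NS (A A_apply pp pp_nonneg Clause Phi Ext neg neg_apply neg_add Sat Satisfies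
  Small phi_card phi_sat_iff exists_unsat)

section lin

variable {V : Type} [Fintype V] [DecidableEq V]

/-- The vectors of a free family. -/
theorem exists_free (H S : Submodule (ZMod 2) (V → ZMod 2)) {r : ℕ}
    (h : finrank (ZMod 2) (H ⊓ S : Submodule (ZMod 2) (V → ZMod 2)) + r ≤ finrank (ZMod 2) H) :
    ∃ v : Fin r → V → ZMod 2, (∀ i, v i ∈ H) ∧
      ∀ c : Fin r → ZMod 2, ∑ i, c i • v i ∈ S → c = 0 := by
  have h1 := LinearMap.finrank_range_add_finrank_ker (S.mkQ.domRestrict H)
  have h2 : finrank (ZMod 2) (LinearMap.ker (S.mkQ.domRestrict H)) ≤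
      finrank (ZMod 2) (H ⊓ S : Submodule (ZMod 2) (V → ZMod 2)) := by
    have h3 : (LinearMap.ker (S.mkQ.domRestrict H)).map H.subtype = H ⊓ S := by
      ext x
      rw [Submodule.mem_map]
      constructor
      · rintro ⟨y, hy, rfl⟩
        refine ⟨y.2, ?_⟩
        have h4 : S.mkQ (y : V → ZMod 2) = 0 := hy
        rw [Submodule.mkQ_apply, Submodule.Quotient.mk_eq_zero] at h4
        exact h4
      · rintro ⟨hx, hx'⟩
        refine ⟨⟨x, hx⟩, ?_, rfl⟩
        show S.mkQ x = 0
        rw [Submodule.mkQ_apply, Submodule.Quotient.mk_eq_zero]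
        exact hx'
    rw [← h3]
    exact le_of_eq (Submodule.equivMapOfInjective H.subtype H.subtype_injective _).finrank_eq
  have h4 : r ≤ finrank (ZMod 2) (LinearMap.range (S.mkQ.domRestrict H)) := by omega
  obtain ⟨f, hf⟩ := exists_linearIndependent_of_le_finrank h4
  have h5 : ∀ i, ∃ y : H, S.mkQ.domRestrict H y = (f i : (V → ZMod 2) ⧸ S) := fun i => (f i).2
  choose y hy using h5
  refine ⟨fun i => (y i : V → ZMod 2), fun i => (y i).2, fun c hc => ?_⟩
  have h6 : ∑ i, c i • f i = 0 := by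
    apply Subtype.ext
    rw [Submodule.coe_sum]
    have h7 : ∀ i, ((c i • f i : LinearMap.range (S.mkQ.domRestrict H)) : (V → ZMod 2) ⧸ S) =
        S.mkQ (c i • (y i : V → ZMod 2)) := by
      intro i
      rw [Submodule.coe_smul, ← hy i, map_smul]
      rfl
    rw [Finset.sum_congr rfl fun i _ => h7 i, ← map_sum, Submodule.mkQ_apply]
    exact (Submodule.Quotient.mk_eq_zero S).2 hc
  funext i
  exact (Fintype.linearIndependent_iff.1 hf) c h6 i

theorem cd_inf (H1 H2 : Submodule (ZMod 2) (V → ZMod 2)) : cd (H1 ⊓ H2) ≤ cd H1 + cd H2 := by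
  have h1 := Submodule.finrank_sup_add_finrank_inf_eq H1 H2
  have h2 := cd_add H1
  have h3 := cd_add H2
  have h4 := cd_add (H1 ⊓ H2)
  have h5 : finrank (ZMod 2) (H1 ⊔ H2 : Submodule (ZMod 2) (V → ZMod 2)) ≤ Fintype.card V := by
    have := Submodule.finrank_le (H1 ⊔ H2)
    rwa [Module.finrank_fintype_fun_eq_card] at this
  omega

/-- The stabilizer of a position is large. -/
theorem cd_St {O : Type} [Fintype O] (ρ : Multiplicative (V → ZMod 2) →* Equiv.Perm O) (o : O)
    {w : ℕ} (hw : Fintype.card O < 2 ^ w) : cd (St ρ o) ≤ w := by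
  classical
  by_contra hcon
  have h1 := cd_add (St ρ o)
  have h2 : finrank (ZMod 2) (St ρ o) + w < Fintype.card V := by omega
  have h3 := hits_le ρ (univ : Finset O) o (s := Fintype.card O) (by rw [Finset.card_univ]) h2
  have h4 : hits ρ (univ : Finset O) o = 2 ^ Fintype.card V := by
    unfold hits
    rw [Finset.filter_true_of_mem (fun g _ => Finset.mem_univ _), Finset.card_univ,
      Fintype.card_fun, ZMod.card]
  rw [h4, mul_comm] at h3
  have h5 := Nat.le_of_mul_le_mul_right h3 (by positivity)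
  have h6 : 2 ^ w ≤ 2 ^ (w + 1) := Nat.pow_le_pow_right (by norm_num) (Nat.le_succ w)
  omega

end lin

section split

variable {V : Type} [Fintype V] [DecidableEq V]

theorem mv_eq {l r : ℕ} (ρ : Multiplicative (V → ZMod 2) →* Equiv.Perm (Fin l))
    (v : Fin r → V → ZMod 2) (z : Fin l → Bool) (c : Fin r → Bool) :
    mv (fun i => (ρ (Multiplicative.ofAdd (v i))).symm) z c =
      actW ρ (Multiplicative.ofAdd (∑ i, (if c i = true then (1 : ZMod 2) else 0) • v i)) z := by
  have h1 : ∀ L : List (Fin r),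
      L.foldr (fun i y => if c i = true then y ∘ (ρ (Multiplicative.ofAdd (v i))).symm else y) z =
      actW ρ (Multiplicative.ofAdd (L.map fun i =>
        (if c i = true then (1 : ZMod 2) else 0) • v i).sum) z := by
    intro L
    induction L with
    | nil =>
      rw [List.foldr_nil, List.map_nil, List.sum_nil, ofAdd_zero, map_one]
      rfl
    | cons i L ih =>
      rw [List.foldr_cons, ih, List.map_cons, List.sum_cons, ofAdd_add, map_mul,
        Equiv.Perm.mul_apply]
      by_cases hc : c i = true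
      · rw [if_pos hc, if_pos hc, one_smul]
        rfl
      · rw [if_neg hc, if_neg hc, zero_smul, ofAdd_zero, map_one]
        rfl
  unfold mv
  rw [h1, Fin.sum_univ_def]

theorem actW_fix {l : ℕ} (ρ : Multiplicative (V → ZMod 2) →* Equiv.Perm (Fin l)) (o : Fin l)
    {h : V → ZMod 2} (hh : h ∈ St ρ o) (z : Fin l → Bool) :
    actW ρ (Multiplicative.ofAdd h) z o = z o := by
  rw [actW_apply, (Equiv.symm_apply_eq _).2 ((mem_St _ _ _).1 hh).symm]

theorem tl_ext {m : ℕ} {z z' : Fin (m + 2) → Bool} (h0 : z 0 = z' 0) (h1 : z 1 = z' 1)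
    (h : tl z = tl z') : z = z' := by
  funext i
  refine Fin.cases h0 (fun i => ?_) i
  refine Fin.cases h1 (fun i => ?_) i
  exact congrFun h i

/-- **A generic set splits large orbits.** -/
theorem split {m r : ℕ} (ρ : Multiplicative (V → ZMod 2) →* Equiv.Perm (Fin (m + 2)))
    (z : Fin (m + 2) → Bool) (S : Set (Fin m → Bool))
    (hgen : ∀ (π : Fin r → Fin (m + 2) → Fin (m + 2)) (z : Fin (m + 2) → Bool),
      Function.Injective (fun c => tl (mv π z c)) →
      (∃ c, tl (mv π z c) ∈ S) ∧ ∃ c, tl (mv π z c) ∉ S)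
    (H : Submodule (ZMod 2) (V → ZMod 2)) (h0 : H ≤ St ρ 0) (h1 : H ≤ St ρ 1)
    (hfr : finrank (ZMod 2) (H ⊓ St (actW ρ) z : Submodule (ZMod 2) (V → ZMod 2)) + r ≤
      finrank (ZMod 2) H) :
    (∃ h ∈ H, tl (actW ρ (Multiplicative.ofAdd h) z) ∈ S) ∧
      ∃ h ∈ H, tl (actW ρ (Multiplicative.ofAdd h) z) ∉ S := by
  obtain ⟨v, hv, hfree⟩ := exists_free H (St (actW ρ) z) hfr
  have hmem : ∀ c : Fin r → Bool,
      ∑ i, (if c i = true then (1 : ZMod 2) else 0) • v i ∈ H := fun c =>
    Submodule.sum_mem _ fun i _ => Submodule.smul_mem _ _ (hv i)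
  have hinj : Function.Injective
      (fun c => tl (mv (fun i => (ρ (Multiplicative.ofAdd (v i))).symm) z c)) := by
    intro c c' hcc
    have hcc' : tl (mv (fun i => (ρ (Multiplicative.ofAdd (v i))).symm) z c) =
      tl (mv (fun i => (ρ (Multiplicative.ofAdd (v i))).symm) z c') := hcc
    rw [mv_eq, mv_eq] at hcc'
    have h2 := tl_ext
      ((actW_fix ρ 0 (h0 (hmem c)) z).trans (actW_fix ρ 0 (h0 (hmem c')) z).symm)
      ((actW_fix ρ 1 (h1 (hmem c)) z).trans (actW_fix ρ 1 (h1 (hmem c')) z).symm) hcc'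
    have h3 : ∑ i, ((if c i = true then (1 : ZMod 2) else 0) -
        (if c' i = true then (1 : ZMod 2) else 0)) • v i ∈ St (actW ρ) z := by
      rw [Finset.sum_congr rfl fun i _ => sub_smul _ _ (v i), Finset.sum_sub_distrib, mem_St,
        ← neg_add_eq_sub, ofAdd_add, map_mul, Equiv.Perm.mul_apply, h2, ofAdd_neg, map_inv]
      exact Equiv.symm_apply_apply _ _
    have h4 := hfree _ h3
    funext i
    have h5 := congrFun h4 i
    simp only [Pi.zero_apply] at h5
    by_cases hc : c i = true <;> by_cases hc' : c' i = true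
    · rw [hc, hc']
    · rw [if_pos hc, if_neg hc', sub_zero] at h5
      exact absurd h5 one_ne_zero
    · rw [if_neg hc, if_pos hc', zero_sub, neg_eq_zero] at h5
      exact absurd h5 one_ne_zero
    · rw [Bool.not_eq_true] at hc hc'
      rw [hc, hc']
  obtain ⟨⟨c, hc⟩, c', hc'⟩ := hgen _ z hinj
  rw [mv_eq] at hc hc'
  exact ⟨⟨_, hmem c, hc⟩, _, hmem c', hc'⟩

end split

section main

variable {V X : Type} [Fintype V] [DecidableEq V] {k m r : ℕ} {ι : V → X} (E : Ext ι)

/-- A position that is fixed by a large group. -/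
theorem bit_fix {O : Type} [Fintype O] (hι : Function.Injective ι)
    (F : Red (Clause k X ⊕ Fin r) O V (exA (act k E) r)) (a : Fin r → Bool)
    (T : Fin m × Fin k → V) {w : ℕ} (hw : 1 ≤ w) (hB : Base T w)
    (h1 : ∀ q ∈ F.rev, ∀ S : Finset (Fin m), w < S.card → S.card ≤ 2 * w → rowT T S ≠ q)
    (h2 : ∀ q ∈ F.allC, ∀ S : Finset (Fin m), w < S.card → S.card ≤ 2 * w → rowT T S ≠ q)
    (b : Fin m → ZMod 2) (H : Submodule (ZMod 2) (V → ZMod 2)) (o : O) (hH : H ≤ St F.ρ o)
    (β : Fin m → ZMod 2) (hβ : ∀ x ∈ gens (A T) w H, pr x β = 0) :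
    F.out (inp (ind (Phi ι T (b + β))) a) o = F.out (inp (ind (Phi ι T b)) a) o := by
  classical
  refine Eq.symm ((F.alg o).run_eqH (exA_add (act_add E)) (stab F.ρ o) wS_add wS_zero ?_
      (phi_linked hι E a b β hw hB) (fun y hy => F.sym o y hy) ?_)
  · intro x hx hp
    have h3 : wS x ≤ w := by
      by_contra hlt
      rw [not_le] at hlt
      exact h1 _ (F.mem_rev hp) (sp x) hlt hx (col1_apply T x).symm
    refine hβ x ⟨h3, fun g hg => ?_⟩
    rw [← pr_col1]
    exact hp g ((mem_St _ _ _).1 (hH hg))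
  · intro x hx hx' hc
    exact h2 _ (Finset.mem_biUnion.2 ⟨o, Finset.mem_univ _, hc⟩) (sp x) hx hx'
      (col1_apply T x).symm

/-- **The two cosets cannot be separated.** -/
theorem no_sep (hι : Function.Injective ι) {l : ℕ}
    (F : Red (Clause k X ⊕ Fin r) (Fin l) V (exA (act k E) r))
    (equi : ∀ (x : Set (Clause k X)) (a : Fin r → Bool) y o,
      F.out (fun z => inp (ind x) a ((exA (act k E) r y).symm z))
        (F.ρ (Multiplicative.ofAdd y) o) = F.out (inp (ind x) a) o) (a : Fin r → Bool)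
    (A' B : ∀ m, Set (Fin m → Bool))
    (hgen : ∀ m (π : Fin (4 * Nat.clog 2 (m + 2)) → Fin (m + 2) → Fin (m + 2))
      (z : Fin (m + 2) → Bool), Function.Injective (fun c => tl (mv π z c)) →
      (∃ c, tl (mv π z c) ∈ A' m) ∧ ∃ c, tl (mv π z c) ∉ A' m)
    (T : Fin m × Fin k → V) {w L t : ℕ} (hw : 1 ≤ w) (hB : Base T w) (hl : l < 2 ^ w)
    (h1 : ∀ q ∈ F.rev, ∀ S : Finset (Fin m), w < S.card → S.card ≤ 2 * w → rowT T S ≠ q)
    (h2 : ∀ q ∈ F.allC, ∀ S : Finset (Fin m), w < S.card → S.card ≤ 2 * w → rowT T S ≠ q)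
    (hB' : ∀ x, wS x ≤ t → (∀ g, pr x (A T g) = 0) → x = 0)
    (ht : (L + 1) * w ≤ t) (hL : 6 * w ≤ L + 1) (b0 bu : Fin m → ZMod 2)
    (hyes : ∀ g, F.out (inp (ind (Phi ι T (b0 + A T g))) a) ∈ Cook A' B l)
    (hno : ∀ g, F.out (inp (ind (Phi ι T (b0 + bu + A T g))) a) ∉ Cook A' B l) : False := by
  have hbu : ∀ H : Submodule (ZMod 2) (V → ZMod 2), cd H ≤ L →
      ∃ g, ∀ x ∈ gens (A T) w H, pr x (bu + A T g) = 0 := by
    intro H hH
    have h1 := (inj_U (A T) w hB' H (le_trans (Nat.mul_le_mul_right _ (by omega)) ht)).2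
    obtain ⟨g, -, hg⟩ := exists_h (A T) (UU (A T) w H) ⊤ bu (fun x hx => by
      rw [h1 x hx.1 (fun g => hx.2 g trivial)]
      exact pr_zero_left _)
    refine ⟨g, fun x hx => ?_⟩
    rw [pr_add_right, hg x (Submodule.subset_span hx)]
    exact CharTwo.add_self_eq_zero _
  rcases l with _ | _ | l
  · exact hyes 0
  · exact hyes 0
  · -- the orbits are large
    have hbig : ∀ g, L < cd (St (actW F.ρ) (F.out (inp (ind (Phi ι T (b0 + A T g))) a))) := by
      intro g
      by_contra hcon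
      obtain ⟨g', hg'⟩ := hbu _ (not_lt.1 hcon)
      have h3 := word_fix E hι F equi T hw hB h1 h2 a (b0 + A T g) _ (bu + A T g') le_rfl hg'
      have h4 : b0 + A T g + (bu + A T g') = b0 + bu + A T (g + g') := by
        rw [map_add]
        abel
      rw [h4] at h3
      apply hno (g + g')
      rw [h3]
      exact hyes g
    have hbig' : ∀ g, L < cd (St (actW F.ρ) (F.out (inp (ind (Phi ι T (b0 + bu + A T g))) a))) := by
      intro g
      by_contra hcon
      obtain ⟨g', hg'⟩ := hbu _ (not_lt.1 hcon)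
      have h3 := word_fix E hι F equi T hw hB h1 h2 a (b0 + bu + A T g) _ (bu + A T g') le_rfl hg'
      have h4 : b0 + bu + A T g + (bu + A T g') = b0 + A T (g + g') := by
        rw [map_add]
        have h5 := add_self_fin bu
        calc b0 + bu + A T g + (bu + A T g') = b0 + (A T g + A T g') + (bu + bu) := by abel
          _ = b0 + (A T g + A T g') := by rw [h5, add_zero]
      rw [h4] at h3
      apply hno g
      rw [← h3]
      exact hyes (g + g')
    -- the group that fixes the first two positions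
    set H : Submodule (ZMod 2) (V → ZMod 2) := St F.ρ 0 ⊓ St F.ρ 1 with hH
    have hcH : cd H ≤ 2 * w := by
      have e0 := cd_St F.ρ 0 (w := w) (by rw [Fintype.card_fin]; exact hl)
      have e1 := cd_St F.ρ 1 (w := w) (by rw [Fintype.card_fin]; exact hl)
      have e2 := cd_inf (St F.ρ 0) (St F.ρ 1)
      rw [← hH] at e2
      omega
    have hu : Nat.clog 2 (l + 2) ≤ w := Nat.clog_le_of_le_pow hl.le
    have hfr : ∀ z : Fin (l + 2) → Bool, L < cd (St (actW F.ρ) z) →
        finrank (ZMod 2) (H ⊓ St (actW F.ρ) z : Submodule (ZMod 2) (V → ZMod 2)) +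
          4 * Nat.clog 2 (l + 2) ≤ finrank (ZMod 2) H := by
      intro z hz
      have e0 : finrank (ZMod 2) (H ⊓ St (actW F.ρ) z : Submodule (ZMod 2) (V → ZMod 2)) ≤
          finrank (ZMod 2) (St (actW F.ρ) z) := Submodule.finrank_mono inf_le_right
      have e1 := cd_add (St (actW F.ρ) z)
      have e2 := cd_add H
      omega
    obtain ⟨g, hg⟩ := hbu H (by omega)
    have hb0 : ∀ o, H ≤ St F.ρ o → F.out (inp (ind (Phi ι T (b0 + bu + A T g))) a) o =
        F.out (inp (ind (Phi ι T b0)) a) o := by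
      intro o ho
      have h3 := bit_fix E hι F a T hw hB h1 h2 b0 H o ho (bu + A T g) hg
      rw [← add_assoc] at h3
      exact h3
    set z0 := F.out (inp (ind (Phi ι T b0)) a) with hz0
    set z1 := F.out (inp (ind (Phi ι T (b0 + bu + A T g))) a) with hz1
    have hin : ∀ h, actW F.ρ (Multiplicative.ofAdd h) z0 ∈ Cook A' B (l + 2) := by
      intro h
      rw [hz0, ← word_shift E F equi T a b0 h]
      exact hyes h
    have hout : ∀ h, actW F.ρ (Multiplicative.ofAdd h) z1 ∉ Cook A' B (l + 2) := by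
      intro h
      have h3 : b0 + bu + A T g + A T h = b0 + bu + A T (g + h) := by
        rw [map_add]
        abel
      rw [hz1, ← word_shift E F equi T a _ h, h3]
      exact hno (g + h)
    have hp0 : z1 0 = z0 0 := hb0 0 inf_le_left
    have hp1 : z1 1 = z0 1 := hb0 1 inf_le_right
    obtain ⟨-, h, hh, hhA⟩ := split F.ρ z0 (A' l) (hgen l) H inf_le_left inf_le_right
      (hfr z0 (by
        have := hbig 0
        rw [map_zero, add_zero] at this
        exact this))
    obtain ⟨⟨h', hh', hhA'⟩, -⟩ := split F.ρ z1 (A' l) (hgen l) H inf_le_left inf_le_right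
      (hfr z1 (hbig' g))
    have e0 := actW_fix F.ρ 0 hh.1 z0
    have e1 := actW_fix F.ρ 1 hh.2 z0
    have e0' := actW_fix F.ρ 0 hh'.1 z1
    have e1' := actW_fix F.ρ 1 hh'.2 z1
    rcases hin h with hc | hc | hc
    · exact hhA hc.2.2
    · exact hhA hc.2.2.1
    · apply hout h'
      refine Or.inr (Or.inr ⟨?_, ?_, Or.inl hhA'⟩)
      · rw [e0', hp0, ← e0]
        exact hc.1
      · rw [e1', hp1, ← e1]
        exact hc.2.1

/-- **One query does not suffice.** -/
theorem one_main (hι : Function.Injective ι) (F : LProc (Clause k X) V (act k E) 1)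
    (A' B : ∀ m, Set (Fin m → Bool))
    (hgen : ∀ m (π : Fin (4 * Nat.clog 2 (m + 2)) → Fin (m + 2) → Fin (m + 2))
      (z : Fin (m + 2) → Bool), Function.Injective (fun c => tl (mv π z c)) →
      (∃ c, tl (mv π z c) ∈ A' m) ∧ ∃ c, tl (mv π z c) ∉ A' m)
    (T : Fin m × Fin k → V) {w L t : ℕ} (hw : 1 ≤ w) (hB : Base T w) (hm : Fintype.card V < m)
    (hl : F.l 0 < 2 ^ w)
    (hav : ∀ q ∈ avoid F.toO, ∀ S : Finset (Fin m), w < S.card → S.card ≤ 2 * w →
      rowT T S ≠ q)
    (hT : ∀ S : Finset (Fin m), 1 ≤ S.card → S.card ≤ t → rowT T S ≠ 0)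
    (ht : (L + 1) * w ≤ t) (hL : 6 * w ≤ L + 1)
    (hdec : ∀ b, F.acc (Cook A' B) (ind (Phi ι T b)) = true ↔ Sat (Phi ι T b)) : False := by
  classical
  obtain ⟨bu, hbu⟩ := exists_unsat (ι := ι) hm T
  have hsat : ∀ b, Sat (Phi ι T b) ↔ ∃ g, A T g = b := by
    intro b
    constructor
    · rintro ⟨x, hx⟩
      exact ⟨fun v => x (ι v), funext fun j => (phi_sat_iff ι T b x).1 hx j⟩
    · rintro ⟨g, rfl⟩
      refine ⟨E.ext g, (phi_sat_iff ι T _ _).2 fun j => ?_⟩
      rw [A_apply]
      exact Finset.sum_congr rfl fun l _ => E.apply g _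
  have hB' : ∀ x, wS x ≤ t → (∀ g, pr x (A T g) = 0) → x = 0 := by
    intro x hx hg
    have h6 : rowT T (sp x) = 0 := by
      rw [← col1_apply]
      funext v
      have h1 := hg (Pi.single v 1)
      rw [← pr_col1] at h1
      unfold pr at h1
      rw [Finset.sum_eq_single v (fun i _ hi => by rw [Pi.single_eq_of_ne hi, mul_zero])
        (fun h => absurd (Finset.mem_univ _) h), Pi.single_eq_same, mul_one] at h1
      exact h1
    have h7 : (sp x).card = 0 := by
      by_contra hne
      exact hT _ (Nat.one_le_iff_ne_zero.2 hne) hx h6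
    funext j
    by_contra hj
    have h8 : j ∈ sp x := (mem_sp x j).2 hj
    rw [Finset.card_eq_zero.1 h7] at h8
    exact absurd h8 (Finset.notMem_empty j)
  have hno : ∀ g, ¬ Sat (Phi ι T (bu + A T g)) := by
    intro g h
    obtain ⟨g', hg'⟩ := (hsat _).1 h
    apply hbu
    refine (hsat bu).2 ⟨g' + g, ?_⟩
    rw [map_add, hg', add_assoc, add_self_fin, add_zero]
  have hyes : ∀ g, Sat (Phi ι T (0 + A T g)) := fun g => (hsat _).2 ⟨g, (zero_add _).symm⟩
  have a1 : ∀ q ∈ (F.qry 0).rev, ∀ S : Finset (Fin m), w < S.card → S.card ≤ 2 * w →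
      rowT T S ≠ q := by
    intro q hq
    refine hav q (Finset.mem_union_left _ (Finset.mem_biUnion.2 ⟨0, Finset.mem_univ _, ?_⟩))
    exact Finset.mem_union_left _ hq
  have a2 : ∀ q ∈ (F.qry 0).allC, ∀ S : Finset (Fin m), w < S.card → S.card ≤ 2 * w →
      rowT T S ≠ q := by
    intro q hq
    refine hav q (Finset.mem_union_left _ (Finset.mem_biUnion.2 ⟨0, Finset.mem_univ _, ?_⟩))
    exact Finset.mem_union_right _ hq
  -- the membership of the queries
  let ff : Fin 1 → Bool := fun _ => false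
  have hrun : ∀ b, F.acc (Cook A' B) (ind (Phi ι T b)) =
      F.dec.run (inp (ind (Phi ι T 0)) (fun _ =>
        decide ((F.qry 0).out (inp (ind (Phi ι T b)) ff) ∈ Cook A' B (F.l 0)))) := by
    intro b
    have h1 : F.acc (Cook A' B) (ind (Phi ι T b)) =
        F.toO.dec.run (inp (ind (Phi ι T b)) (fun _ =>
          decide ((F.qry 0).out (inp (ind (Phi ι T b)) ff) ∈ Cook A' B (F.l 0)))) := by
      show F.toO.dec.run (inp (ind (Phi ι T b)) (F.toO.answers _ (ind (Phi ι T b)) 1)) = _
      congr 2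
      funext i
      rw [Subsingleton.elim i 0]
      rw [answers_succ, if_pos (show (0 : Fin 1).1 = 0 from rfl)]
      apply decide_eq_decide.2
      simp only [Finset.mem_filter, Finset.mem_univ, true_and]
      rfl
    rw [h1]
    exact dec_eq hι E F.toO T w hw hB hav _ b 0
  have hne : ∀ g g', ¬ (((F.qry 0).out (inp (ind (Phi ι T (0 + A T g))) ff) ∈
      Cook A' B (F.l 0)) ↔
      ((F.qry 0).out (inp (ind (Phi ι T (bu + A T g'))) ff) ∈ Cook A' B (F.l 0))) := by
    intro g g' hiff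
    have h1 := (hdec _).2 (hyes g)
    rw [hrun, decide_eq_decide.2 hiff, ← hrun] at h1
    exact hno g' ((hdec _).1 h1)
  by_cases h0 : (F.qry 0).out (inp (ind (Phi ι T (0 + A T 0))) ff) ∈ Cook A' B (F.l 0)
  · have hb : ∀ g, (F.qry 0).out (inp (ind (Phi ι T (bu + A T g))) ff) ∉
        Cook A' B (F.l 0) := by
      intro g hg
      exact hne 0 g ⟨fun _ => hg, fun _ => h0⟩
    have ha : ∀ g, (F.qry 0).out (inp (ind (Phi ι T (0 + A T g))) ff) ∈
        Cook A' B (F.l 0) := by
      intro g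
      by_contra hg
      exact hne g 0 ⟨fun h => absurd h hg, fun h => absurd h (hb 0)⟩
    refine no_sep E hι (F.qry 0) (F.equi 0) ff A' B hgen T hw hB hl a1 a2 hB' ht hL 0 bu ha ?_
    intro g
    rw [zero_add]
    exact hb g
  · have hb : ∀ g, (F.qry 0).out (inp (ind (Phi ι T (bu + A T g))) ff) ∈
        Cook A' B (F.l 0) := by
      intro g
      by_contra hg
      exact hne 0 g ⟨fun h => absurd h h0, fun h => absurd h hg⟩
    have ha : ∀ g, (F.qry 0).out (inp (ind (Phi ι T (0 + A T g))) ff) ∉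
        Cook A' B (F.l 0) := by
      intro g hg
      exact hne g 0 ⟨fun _ => hb 0, fun _ => hg⟩
    refine no_sep E hι (F.qry 0) (F.equi 0) ff A' B hgen T hw hB hl a1 a2 hB' ht hL bu bu hb ?_
    intro g
    rw [add_self_fin]
    exact ha g

end main

/-- **Symmetric procedures for 3-SAT with one query to the generic language are long.** -/
theorem one_bound {X : Type} {n w : ℕ} {ι : Fin n → X} (hι : Function.Injective ι)
    (E : Ext ι) (F : LProc (Clause 3 X) (Fin n) (act 3 E) 1) (A' B : ∀ m, Set (Fin m → Bool))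
    (hgen : ∀ m (π : Fin (4 * Nat.clog 2 (m + 2)) → Fin (m + 2) → Fin (m + 2))
      (z : Fin (m + 2) → Bool), Function.Injective (fun c => tl (mv π z c)) →
      (∃ c, tl (mv π z c) ∈ A' m) ∧ ∃ c, tl (mv π z c) ∉ A' m)
    (hc : F.cost < 2 ^ w) (hw : 1 ≤ w)
    (hdec : ∀ Φ ∈ Small 3 X (4 * (n + 1)), F.acc (Cook A' B) (ind Φ) = true ↔ Sat Φ) :
    n < 48000 * w ^ 2 := by
  classical
  by_contra hcon
  rw [not_lt] at hcon
  have ht : 8000 * (6 * w * w) ≤ n := by
    calc 8000 * (6 * w * w) = 48000 * w ^ 2 := by ring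
      _ ≤ n := hcon
  have hQ : (avoid F.toO).card + 1 ≤ 4 ^ w := by
    refine (card_avoid F.toO).trans ?_
    have h1 : (F.cost + 1) ^ 2 ≤ (2 ^ w) ^ 2 := Nat.pow_le_pow_left hc 2
    have h2 : (2 ^ w) ^ 2 = 4 ^ w := by
      rw [← pow_mul, mul_comm, pow_mul]
      norm_num
    rw [← h2]
    exact h1
  have hwt : w ≤ 6 * w * w := Nat.le_mul_of_pos_left _ (by omega)
  obtain ⟨T, hB, hav, hT⟩ := exists_T n w (6 * w * w) hw hwt ht (avoid F.toO) hQ
  have hl : F.l 0 < 2 ^ w := by
    refine lt_of_le_of_lt ?_ hc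
    show F.l 0 ≤ ∑ i : Fin 1, (Fintype.card (Fin (F.l i)) + (F.qry i).size) + F.dec.size
    rw [Fin.sum_univ_one, Fintype.card_fin]
    omega
  exact one_main E hι F A' B hgen T hw hB (by rw [Fintype.card_fin]; exact Nat.lt_succ_self n)
    hl hav hT (L := 6 * w - 1) (by rw [Nat.sub_add_cancel (by omega)]) (by omega)
    (fun b => hdec _ (phi_card (by norm_num) T b))

end Pool.Agent.H550R2.CK
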